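import Mathlib
import Pool.Agent.H418Z.BoxDefs
import Pool.Agent.H418Z.BoxMain

set_option autoImplicit false

namespace Pool.Agent.Results.MP_653b6e_gt.ConnLeCoind

open Pool.Agent.H418Z.Box

/-- For every finite graph `G` and every `n`: if the reduced mod 2 homology of the box complex
`B₀(G)` vanishes in all degrees `≤ n - 1`, then there is a continuous equivariant map from the
unit sphere `Sⁿ` of `ℝ^(n+1)` with the antipodal action to the geometric realisation of `B₀(G)`. -/
theorem result (V : Type) [Fintype V] [DecidableEq V] (G : SimpleGraph V) (n : ℕ)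
    (h : ∀ m ≤ n, Acyc (B0 G) m) :
    ∃ f : C(SphS n, Rl (B0 G)), ∀ x y : SphS n, y.1 = -x.1 → (f y).1 = swapPt (f x).1 := by
  obtain ⟨f, hf⟩ := main n h
  refine ⟨f, fun x y hxy => ?_⟩
  obtain rfl : y = neg x := Subtype.ext hxy
  exact hf x

end Pool.Agent.Results.MP_653b6e_gt.ConnLeCoind
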